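import Mathlib
import Pool.Agent.D0H11.GF.Stm

/-! Project GF, module 9 PR4 (helper28). -/

set_option autoImplicit false

namespace Pool.Agent.D0H28.GF

open Finset Pool.Agent.D0H11.GF

lemma mem_sph (n : ℕ) (x : Fin 4 → ℤ) : x ∈ sph n ↔ x 0 ^ 2 + x 1 ^ 2 + x 2 ^ 2 + x 3 ^ 2 = (n : ℤ) := by
  unfold sph
  rw [mem_filter, Fintype.mem_piFinset]
  have h4 : ∑ i, x i ^ 2 = x 0 ^ 2 + x 1 ^ 2 + x 2 ^ 2 + x 3 ^ 2 := by
    simp [Fin.sum_univ_four]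
  rw [h4]
  constructor
  · exact fun h => h.2
  · intro h
    refine ⟨fun i => ?_, h⟩
    rw [mem_Icc]
    have h5 : x i ^ 2 ≤ n := by
      rw [← h, ← h4]
      exact single_le_sum (f := fun i => x i ^ 2) (fun i _ => sq_nonneg _) (mem_univ i)
    constructor
    · nlinarith
    · nlinarith

lemma sph_sq_le {n : ℕ} {x : Fin 4 → ℤ} (hx : x ∈ sph n) (i : Fin 4) : x i ^ 2 ≤ n := by
  have h4 : ∑ i, x i ^ 2 = x 0 ^ 2 + x 1 ^ 2 + x 2 ^ 2 + x 3 ^ 2 := by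
    simp [Fin.sum_univ_four]
  rw [← (mem_sph n x).mp hx, ← h4]
  exact single_le_sum (f := fun i => x i ^ 2) (fun i _ => sq_nonneg _) (mem_univ i)

/-- the pairs of points on the sphere -/
noncomputable def Pn (Δ n : ℕ) : Finset ((Fin 4 → ℤ) × (Fin 4 → ℤ)) :=
  (sph n ×ˢ sph n).filter fun p => |p.1 0 ^ 2 - p.2 0 ^ 2| ≤ (Δ : ℤ)

lemma mem_Pn {Δ n : ℕ} {p : (Fin 4 → ℤ) × (Fin 4 → ℤ)} : p ∈ Pn Δ n ↔
    (p.1 ∈ sph n ∧ p.2 ∈ sph n) ∧ |p.1 0 ^ 2 - p.2 0 ^ 2| ≤ (Δ : ℤ) := by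
  unfold Pn
  rw [mem_filter, mem_product]

/-- the set of SQ4 -/
noncomputable def S4 (M : ℕ) (e : ℤ) : Finset ((ℤ × ℤ) × (ℤ × ℤ)) :=
  ((Icc (-(M : ℤ)) M ×ˢ Icc (-(M : ℤ)) M) ×ˢ (Icc (-(M : ℤ)) M ×ˢ Icc (-(M : ℤ)) M)).filter
    (fun p : (ℤ × ℤ) × (ℤ × ℤ) => p.1.1 ^ 2 - p.1.2 ^ 2 + (p.2.1 ^ 2 - p.2.2 ^ 2) = e)

/-- the set of SQ2 -/
noncomputable def S2' (M Δ : ℕ) : Finset (ℤ × ℤ) :=
  (Icc (-(M : ℤ)) M ×ˢ Icc (-(M : ℤ)) M).filter (fun p : ℤ × ℤ => |p.1 ^ 2 - p.2 ^ 2| ≤ (Δ : ℤ))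

lemma bound_of_sq {M : ℕ} {n : ℕ} {a : ℤ} (h : a ^ 2 ≤ n) (hn : n ≤ M ^ 2) : -(M : ℤ) ≤ a ∧ a ≤ M := by
  have h1 : a ^ 2 ≤ (M : ℤ) ^ 2 := h.trans (by exact_mod_cast hn)
  exact abs_le.mp (abs_le_of_sq_le_sq h1 (by positivity))

open Classical in
lemma count (N Δ M : ℕ) (hM : N ≤ M ^ 2) (K : ℝ) (hK : ∀ e : ℤ, ((S4 M e).card : ℝ) ≤ K) :
    ∑ n ∈ Icc 1 N, (((Pn Δ n).card : ℕ) : ℝ) ≤
      ((S2' M Δ).card : ℝ) * (2 * M + 1) ^ 2 * K := by
  have hK0 : 0 ≤ K := (Nat.cast_nonneg _).trans (hK 0)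
  set W := (Icc 1 N).biUnion (fun n => Pn Δ n) with hW
  have h1 : W.card = ∑ n ∈ Icc 1 N, (Pn Δ n).card := by
    apply card_biUnion
    intro n _ n' _ hne
    change Disjoint (Pn Δ n) (Pn Δ n')
    rw [Finset.disjoint_left]
    intro p hp hp'
    rw [mem_Pn] at hp hp'
    have e1 := (mem_sph n _).mp hp.1.1
    have e2 := (mem_sph n' _).mp hp'.1.1
    apply hne
    have : (n : ℤ) = n' := by rw [← e1, ← e2]
    exact_mod_cast this
  have hWm : ∀ p ∈ W, ∃ n, n ≤ M ^ 2 ∧ p ∈ Pn Δ n := by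
    intro p hp
    rw [hW, mem_biUnion] at hp
    obtain ⟨n, hn, hp⟩ := hp
    rw [mem_Icc] at hn
    exact ⟨n, hn.2.trans hM, hp⟩
  set t := S2' M Δ ×ˢ (Icc (-(M : ℤ)) M ×ˢ Icc (-(M : ℤ)) M) with ht
  have h2 : W.card = ∑ b ∈ t, (W.filter (fun p => ((p.1 0, p.2 0), (p.1 1, p.2 1)) = b)).card := by
    apply card_eq_sum_card_fiberwise
    intro p hp
    obtain ⟨n, hn, hpn⟩ := hWm p hp
    rw [mem_Pn] at hpn
    rw [mem_coe, ht, mem_product]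
    unfold S2'
    rw [mem_filter, mem_product, mem_product, mem_Icc, mem_Icc, mem_Icc, mem_Icc]
    exact ⟨⟨⟨bound_of_sq (sph_sq_le hpn.1.1 0) hn, bound_of_sq (sph_sq_le hpn.1.2 0) hn⟩, hpn.2⟩,
      bound_of_sq (sph_sq_le hpn.1.1 1) hn, bound_of_sq (sph_sq_le hpn.1.2 1) hn⟩
  have h3 : ∀ b ∈ t, ((W.filter (fun p => ((p.1 0, p.2 0), (p.1 1, p.2 1)) = b)).card : ℝ) ≤ K := by
    intro b _
    refine le_trans (Nat.cast_le.mpr ?_)
      (hK (-(b.1.1 ^ 2 - b.1.2 ^ 2) - (b.2.1 ^ 2 - b.2.2 ^ 2)))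
    apply card_le_card_of_injOn (fun p => ((p.1 2, p.2 2), (p.1 3, p.2 3)))
    · intro p hp
      rw [mem_coe, mem_filter] at hp
      obtain ⟨hpW, rfl⟩ := hp
      obtain ⟨n, hn, hpn⟩ := hWm p hpW
      rw [mem_Pn] at hpn
      rw [mem_coe]
      unfold S4
      rw [mem_filter, mem_product, mem_product, mem_product, mem_Icc, mem_Icc, mem_Icc, mem_Icc]
      refine ⟨⟨⟨bound_of_sq (sph_sq_le hpn.1.1 2) hn, bound_of_sq (sph_sq_le hpn.1.2 2) hn⟩,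
        bound_of_sq (sph_sq_le hpn.1.1 3) hn, bound_of_sq (sph_sq_le hpn.1.2 3) hn⟩, ?_⟩
      have e1 := (mem_sph n _).mp hpn.1.1
      have e2 := (mem_sph n _).mp hpn.1.2
      simp only
      linear_combination e1 - e2
    · intro p hp p' hp' heq
      rw [mem_coe, mem_filter] at hp hp'
      have e1 := hp.2.trans hp'.2.symm
      simp only [Prod.mk.injEq] at e1 heq
      apply Prod.ext
      · funext i
        fin_cases i
        · exact e1.1.1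
        · exact e1.2.1
        · exact heq.1.1
        · exact heq.2.1
      · funext i
        fin_cases i
        · exact e1.1.2
        · exact e1.2.2
        · exact heq.1.2
        · exact heq.2.2
  have h4 : ∑ n ∈ Icc 1 N, (((Pn Δ n).card : ℕ) : ℝ) = (W.card : ℝ) := by
    rw [h1]
    push_cast
    rfl
  rw [h4, h2]
  push_cast
  refine (sum_le_sum h3).trans ?_
  rw [sum_const, nsmul_eq_mul, ht, card_product, card_product, Int.card_Icc]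
  have h5 : ((((M : ℤ) + 1 - -(M : ℤ)).toNat : ℕ) : ℝ) = 2 * M + 1 := by
    have : ((M : ℤ) + 1 - -(M : ℤ)).toNat = 2 * M + 1 := by omega
    rw [this]
    push_cast
    ring
  push_cast
  rw [h5]
  nlinarith [hK0]

theorem t_PR4 : S_SQ4 → S_SQ2 → S_PR4 := by
  classical
  rintro ⟨C4, E4, hC4, h4⟩ ⟨C2, hC2, h2⟩
  refine ⟨C2 * C4 * (6 * 9 * 81) * 3 ^ E4, E4 + 1, by positivity, fun N Δ hN => ?_⟩
  set M := Nat.sqrt N + 2 with hM
  have hMN : N ≤ M ^ 2 := by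
    have := Nat.lt_succ_sqrt N
    rw [hM]
    nlinarith [Nat.succ_eq_add_one (Nat.sqrt N)]
  have hlogM0 : 0 ≤ Real.log M := Real.log_natCast_nonneg M
  have h1 := count N Δ M hMN (C4 * (M : ℝ) ^ 2 * Real.log M ^ E4)
    (fun e => by
      have := h4 M e (by omega)
      exact this)
  have h2' : ((S2' M Δ).card : ℝ) ≤ C2 * (Δ * Real.log M + M) := h2 M Δ (by omega)
  have hNr : (2 : ℝ) ≤ N := by exact_mod_cast hN
  have hsq0 : 1.4 ≤ Real.sqrt N := by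
    apply Real.le_sqrt_of_sq_le
    norm_num
    linarith
  have hsq : Real.sqrt N ^ 2 = N := Real.sq_sqrt (by positivity)
  have hMs : (M : ℝ) ≤ 3 * Real.sqrt N := by
    have h5 : ((Nat.sqrt N : ℕ) : ℝ) ≤ Real.sqrt N := Real.nat_sqrt_le_real_sqrt
    rw [hM]
    push_cast
    linarith
  have hM2 : (2 : ℝ) ≤ M := by
    have : 2 ≤ M := by omega
    exact_mod_cast this
  have hlogN : 0.69 ≤ Real.log N := by
    have h7 := Real.log_two_gt_d9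
    have h8 : Real.log 2 ≤ Real.log N := Real.log_le_log (by norm_num) hNr
    linarith
  have hlogM : Real.log M ≤ 3 * Real.log N := by
    have h5 : (M : ℝ) ≤ (N : ℝ) ^ 3 := by
      nlinarith [sq_nonneg (Real.sqrt N), mul_pos (show (0:ℝ) < N by linarith)
        (show (0:ℝ) < N by linarith)]
    calc Real.log M ≤ Real.log ((N : ℝ) ^ 3) := Real.log_le_log (by linarith) h5
      _ = 3 * Real.log N := by rw [Real.log_pow]; norm_num
  have hΔ : (0 : ℝ) ≤ Δ := Nat.cast_nonneg _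
  have a1 : Δ * Real.log M + M ≤ 6 * ((Δ + Real.sqrt N) * Real.log N) := by
    have b1 : Δ * Real.log M ≤ Δ * (3 * Real.log N) := mul_le_mul_of_nonneg_left hlogM hΔ
    have b2 : 3 * Real.sqrt N ≤ 6 * (Real.sqrt N * Real.log N) := by nlinarith
    have b3 : 0 ≤ Δ * Real.log N := mul_nonneg hΔ (by linarith)
    linarith
  have a2 : (2 * (M : ℝ) + 1) ^ 2 ≤ 9 * M ^ 2 := by nlinarith
  have a3 : (M : ℝ) ^ 2 * (M : ℝ) ^ 2 ≤ 81 * (N : ℝ) ^ 2 := by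
    have b1 : (M : ℝ) ^ 2 ≤ 9 * N := by nlinarith
    nlinarith [sq_nonneg (M : ℝ)]
  have a4 : Real.log M ^ E4 ≤ 3 ^ E4 * Real.log N ^ E4 := by
    rw [← mul_pow]
    exact pow_le_pow_left₀ hlogM0 hlogM E4
  have hle : 0 ≤ Real.log N ^ E4 := pow_nonneg (by linarith) _
  have hlM : 0 ≤ Real.log M ^ E4 := pow_nonneg hlogM0 _
  refine le_trans h1 ?_
  calc ((S2' M Δ).card : ℝ) * (2 * M + 1) ^ 2 * (C4 * (M : ℝ) ^ 2 * Real.log M ^ E4)
      ≤ (C2 * (6 * ((Δ + Real.sqrt N) * Real.log N))) * (9 * M ^ 2) *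
          (C4 * (M : ℝ) ^ 2 * (3 ^ E4 * Real.log N ^ E4)) := by
        have c1 : ((S2' M Δ).card : ℝ) ≤ C2 * (6 * ((Δ + Real.sqrt N) * Real.log N)) :=
          h2'.trans (mul_le_mul_of_nonneg_left a1 hC2.le)
        apply mul_le_mul (mul_le_mul c1 a2 (by positivity) (by positivity))
        · exact mul_le_mul_of_nonneg_left a4 (by positivity)
        · positivity
        · positivity
    _ = C2 * C4 * (6 * 9) * 3 ^ E4 * (Δ + Real.sqrt N) * ((M : ℝ) ^ 2 * (M : ℝ) ^ 2) *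
          (Real.log N ^ E4 * Real.log N) := by ring
    _ ≤ C2 * C4 * (6 * 9) * 3 ^ E4 * (Δ + Real.sqrt N) * (81 * (N : ℝ) ^ 2) *
          (Real.log N ^ E4 * Real.log N) := by
        apply mul_le_mul_of_nonneg_right _ (mul_nonneg hle (by linarith))
        apply mul_le_mul_of_nonneg_left a3 (by positivity)
    _ = _ := by ring

end Pool.Agent.D0H28.GF
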