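import Mathlib
import Pool.Agent.D0H28.GF.Pr4

/-! Project GF, module 10 OK4 (helper28). -/

set_option autoImplicit false

namespace Pool.Agent.D0H28.GF

open Finset Filter Pool.Agent.D0H11.GF

lemma sph_abs {n : ℕ} {x y : Fin 4 → ℤ} (hx : x ∈ sph n) (hy : y ∈ sph n) :
    |x 0 ^ 2 - y 0 ^ 2| ≤ (n : ℤ) := by
  have h1 := sph_sq_le hx 0
  have h2 := sph_sq_le hy 0
  have h3 := sq_nonneg (x 0)
  have h4 := sq_nonneg (y 0)
  rw [abs_le]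
  constructor <;> linarith

lemma ev_log (K : ℝ) : ∀ᶠ N : ℕ in atTop, K ≤ Real.log N :=
  (Real.tendsto_log_atTop.comp tendsto_natCast_atTop_atTop).eventually_ge_atTop K

lemma ev_pow (K : ℝ) (k : ℕ) : ∀ᶠ N : ℕ in atTop, K * Real.log N ^ k ≤ N := by
  have h1 : (fun x : ℝ => Real.log x ^ k) =o[atTop] id := Real.isLittleO_pow_log_id_atTop
  have h2 := h1.bound (c := 1 / (|K| + 1)) (by positivity)
  have h3 := (tendsto_natCast_atTop_atTop (R := ℝ)).eventually h2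
  filter_upwards [h3, eventually_ge_atTop 1] with N hN hN1
  have hl : 0 ≤ Real.log (N : ℝ) ^ k := pow_nonneg (Real.log_natCast_nonneg N) _
  simp only [id, Real.norm_eq_abs, abs_of_nonneg hl, Nat.abs_cast] at hN
  have h4 : (|K| + 1) * Real.log (N : ℝ) ^ k ≤ N := by
    have := mul_le_mul_of_nonneg_left hN (by positivity : (0:ℝ) ≤ |K| + 1)
    have e : (|K| + 1) * (1 / (|K| + 1) * (N : ℝ)) = N := by field_simp
    linarith
  have h5 : K ≤ |K| + 1 := (le_abs_self K).trans (by linarith)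
  exact (mul_le_mul_of_nonneg_right h5 hl).trans h4

lemma ev_sqrt (K : ℝ) (hK : 0 ≤ K) (k : ℕ) :
    ∀ᶠ N : ℕ in atTop, K * Real.log N ^ k ≤ Real.sqrt N := by
  filter_upwards [ev_pow (K ^ 2) (2 * k)] with N hN
  have hl : 0 ≤ Real.log (N : ℝ) ^ k := pow_nonneg (Real.log_natCast_nonneg N) _
  apply Real.le_sqrt_of_sq_le
  have h1 : (K * Real.log (N : ℝ) ^ k) ^ 2 = K ^ 2 * Real.log (N : ℝ) ^ (2 * k) := by
    rw [mul_pow, ← pow_mul, Nat.mul_comm]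
  rw [h1]
  exact hN

/-- one pair -/
lemma one_pair {N n a B : ℕ} {τ : ℝ} {x y : Fin 4 → ℤ} (hx : x ∈ sph n) (hy : y ∈ sph n)
    (hN : 1 ≤ N) (hl : 4 ≤ Real.log N) (hτ : 1 / Real.log N ^ B ≤ τ)
    (hn : (N : ℝ) / Real.log N ^ a ≤ n)
    (h : ∀ i j : Fin 4, |τ * (x i : ℝ) ^ 2 * (τ * (y j : ℝ) ^ 2) -
      τ * (x j : ℝ) ^ 2 * (τ * (y i : ℝ) ^ 2)| ≤ (N : ℝ) ^ 2 / Real.log N ^ (2 * B + 2 * a + 1)) :
    |(x 0 : ℝ) ^ 2 - (y 0 : ℝ) ^ 2| ≤ N / Real.log N ^ a := by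
  have hx' : (x 0 : ℝ) ^ 2 + (x 1 : ℝ) ^ 2 + (x 2 : ℝ) ^ 2 + (x 3 : ℝ) ^ 2 = n := by
    exact_mod_cast (mem_sph n x).mp hx
  have hy' : (y 0 : ℝ) ^ 2 + (y 1 : ℝ) ^ 2 + (y 2 : ℝ) ^ 2 + (y 3 : ℝ) ^ 2 = n := by
    exact_mod_cast (mem_sph n y).mp hy
  set l := Real.log (N : ℝ) with hldef
  have hl0 : 0 < l := by linarith
  have hNr : (1 : ℝ) ≤ N := by exact_mod_cast hN
  set Z := (N : ℝ) ^ 2 / l ^ (2 * B + 2 * a + 1) with hZ
  set δ := (x 0 : ℝ) ^ 2 - (y 0 : ℝ) ^ 2 with hδ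
  have e1 : τ ^ 2 * n * δ = ∑ j : Fin 4, (τ * (x 0 : ℝ) ^ 2 * (τ * (y j : ℝ) ^ 2) -
      τ * (x j : ℝ) ^ 2 * (τ * (y 0 : ℝ) ^ 2)) := by
    rw [Fin.sum_univ_four, hδ]
    linear_combination (-(τ ^ 2 * (x 0 : ℝ) ^ 2)) * hy' + (τ ^ 2 * (y 0 : ℝ) ^ 2) * hx'
  have e2 : |τ ^ 2 * n * δ| ≤ 4 * Z := by
    rw [e1]
    refine (abs_sum_le_sum_abs _ _).trans ((sum_le_sum fun j _ => h 0 j).trans ?_)
    rw [sum_const, card_univ, Fintype.card_fin, nsmul_eq_mul]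
    norm_num
  rw [abs_mul, abs_of_nonneg (by positivity : (0:ℝ) ≤ τ ^ 2 * n)] at e2
  have hBp : 0 < l ^ B := pow_pos hl0 _
  have hap : 0 < l ^ a := pow_pos hl0 _
  have e3 : (1 / l ^ B) ^ 2 * (N / l ^ a) * |δ| ≤ 4 * Z := by
    refine le_trans ?_ e2
    apply mul_le_mul_of_nonneg_right _ (abs_nonneg _)
    apply mul_le_mul _ hn (by positivity) (by positivity)
    exact pow_le_pow_left₀ (by positivity) hτ 2
  have e4 : |δ| * l ^ (a + 1) ≤ 4 * N := by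
    have e5 : (1 / l ^ B) ^ 2 * (N / l ^ a) * |δ| * (l ^ (2 * B + 2 * a + 1) / N) =
        |δ| * l ^ (a + 1) := by
      have : l ^ (2 * B + 2 * a + 1) = (l ^ B) ^ 2 * l ^ a * l ^ (a + 1) := by ring
      rw [this]
      field_simp
    have e6 : 4 * Z * (l ^ (2 * B + 2 * a + 1) / N) = 4 * N := by
      rw [hZ]
      field_simp
    rw [← e5, ← e6]
    exact mul_le_mul_of_nonneg_right e3 (by positivity)
  rw [le_div_iff₀ hap]
  have e7 : |δ| * l ^ a * l ≤ N * l := by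
    calc |δ| * l ^ a * l = |δ| * l ^ (a + 1) := by ring
      _ ≤ 4 * N := e4
      _ ≤ N * l := by nlinarith
  exact le_of_mul_le_mul_right e7 hl0

open Classical in
lemma sub_Pn {N n a B Δ : ℕ} {τ : ℕ → ℝ}
    (hτ' : ∀ n : ℕ, 3 ≤ n → 1 / Real.log n ^ B ≤ τ n) (hN : 1 ≤ N) (hn : n ≤ N)
    (hl : 4 ≤ Real.log N) (h3 : 3 * Real.log N ^ a ≤ N)
    (hΔ : ∀ k : ℕ, (k : ℝ) ≤ N / Real.log N ^ a → k ≤ Δ) :
    ((sph n ×ˢ sph n).filter fun p => ∀ i j : Fin 4,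
      |τ n * (p.1 i : ℝ) ^ 2 * (τ n * (p.2 j : ℝ) ^ 2) -
        τ n * (p.1 j : ℝ) ^ 2 * (τ n * (p.2 i : ℝ) ^ 2)| ≤
          (N : ℝ) ^ 2 / Real.log N ^ (2 * B + 2 * a + 1)) ⊆ Pn Δ n := by
  intro p hp
  rw [mem_filter, mem_product] at hp
  obtain ⟨hp1', hp2⟩ := hp
  rw [mem_Pn]
  refine ⟨hp1', ?_⟩
  have hl0 : 0 < Real.log N := by linarith
  have hap : 0 < Real.log (N : ℝ) ^ a := pow_pos hl0 _
  have key : |(p.1 0 : ℝ) ^ 2 - (p.2 0 : ℝ) ^ 2| ≤ N / Real.log N ^ a := by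
    rcases le_total ((n : ℝ)) (N / Real.log N ^ a) with hc | hc
    · refine le_trans ?_ hc
      have := sph_abs hp1'.1 hp1'.2
      exact_mod_cast this
    · have hn3 : 3 ≤ n := by
        have : (3 : ℝ) ≤ n := by
          refine le_trans ?_ hc
          rw [le_div_iff₀ hap]
          exact h3
        exact_mod_cast this
      have hlogn : 0 < Real.log n := Real.log_pos (by
        have : (3 : ℝ) ≤ n := by exact_mod_cast hn3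
        linarith)
      have hτn : 1 / Real.log (N : ℝ) ^ B ≤ τ n := by
        refine le_trans ?_ (hτ' n hn3)
        apply one_div_le_one_div_of_le (pow_pos hlogn _)
        apply pow_le_pow_left₀ hlogn.le
        apply Real.log_le_log
        · have : (3 : ℝ) ≤ n := by exact_mod_cast hn3
          linarith
        · exact_mod_cast hn
      exact one_pair hp1'.1 hp1'.2 hN hl hτn hc hp2
  have hk : ((p.1 0 ^ 2 - p.2 0 ^ 2).natAbs : ℝ) ≤ N / Real.log N ^ a := by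
    rw [Nat.cast_natAbs]
    push_cast
    exact key
  have hk2 := hΔ _ hk
  rw [← Int.natCast_natAbs]
  exact_mod_cast hk2

/-- the final computation -/
lemma final {N A E1 : ℕ} {C Δ : ℝ} (hC : 0 < C) (hΔ0 : 0 ≤ Δ) (hN : 1 ≤ N)
    (h1 : 2 * C ≤ Real.log N) (h2 : 4 ≤ Real.log N)
    (h4 : 2 * C * Real.log N ^ (E1 + A) ≤ Real.sqrt N)
    (hΔ2 : Δ ≤ N / Real.log N ^ (A + E1 + 1)) :
    C * (Δ + Real.sqrt N) * (N : ℝ) ^ 2 * Real.log N ^ E1 ≤ (N : ℝ) ^ 3 / Real.log N ^ A := by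
  generalize Real.log (N : ℝ) = l at *
  have hl0 : 0 < l := by linarith
  have hNr : (1 : ℝ) ≤ N := by exact_mod_cast hN
  have hs0 : 0 ≤ Real.sqrt N := Real.sqrt_nonneg _
  have hs2 : Real.sqrt N * Real.sqrt N = N := Real.mul_self_sqrt (by positivity)
  generalize Real.sqrt (N : ℝ) = r at *
  generalize (N : ℝ) = M at *
  have hlA : 0 < l ^ A := pow_pos hl0 _
  have hap : 0 < l ^ (A + E1 + 1) := pow_pos hl0 _
  rw [le_div_iff₀ hlA]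
  have b1 : C * Δ * M ^ 2 * l ^ E1 * l ^ A ≤ M ^ 3 / 2 := by
    have b2 : Δ * l ^ (A + E1 + 1) ≤ M := by
      rw [le_div_iff₀ hap] at hΔ2; exact hΔ2
    have b4 : C * Δ * M ^ 2 * l ^ E1 * l ^ A * l ≤ C * M ^ 3 := by
      calc C * Δ * M ^ 2 * l ^ E1 * l ^ A * l = C * M ^ 2 * (Δ * l ^ (A + E1 + 1)) := by ring
        _ ≤ C * M ^ 2 * M := mul_le_mul_of_nonneg_left b2 (by positivity)
        _ = C * M ^ 3 := by ring
    have b5 : C * M ^ 3 ≤ M ^ 3 / 2 * l := by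
      have : 0 ≤ M ^ 3 := by positivity
      nlinarith
    exact le_of_mul_le_mul_right (b4.trans b5) hl0
  have b2 : C * r * M ^ 2 * l ^ E1 * l ^ A ≤ M ^ 3 / 2 := by
    have b3 : 2 * C * l ^ (E1 + A) * r ≤ r * r := mul_le_mul_of_nonneg_right h4 hs0
    rw [hs2] at b3
    have b4 : 2 * C * l ^ (E1 + A) * r * M ^ 2 ≤ M * M ^ 2 :=
      mul_le_mul_of_nonneg_right b3 (by positivity)
    have b5 : C * r * M ^ 2 * l ^ E1 * l ^ A = 2 * C * l ^ (E1 + A) * r * M ^ 2 / 2 := by ring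
    rw [b5]
    have b6 : M * M ^ 2 = M ^ 3 := by ring
    linarith
  have b7 : C * (Δ + r) * M ^ 2 * l ^ E1 * l ^ A =
      C * Δ * M ^ 2 * l ^ E1 * l ^ A + C * r * M ^ 2 * l ^ E1 * l ^ A := by ring
  rw [b7]
  linarith

open Classical in
lemma t_hM {B : ℕ} {τ : ℕ → ℝ} (hτ' : ∀ n : ℕ, 3 ≤ n → 1 / Real.log n ^ B ≤ τ n)
    {C : ℝ} {E1 : ℕ} (hC : 0 < C) (hP : ∀ N Δ : ℕ, 2 ≤ N →
      ∑ n ∈ Icc 1 N, (((Pn Δ n).card : ℕ) : ℝ) ≤
        C * (Δ + Real.sqrt N) * (N : ℝ) ^ 2 * Real.log N ^ E1) (A : ℕ) :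
    ∀ᶠ N : ℕ in atTop, ∑ n ∈ Icc 1 N, ((((sph n ×ˢ sph n).filter fun p => ∀ i j : Fin 4,
      |τ n * (p.1 i : ℝ) ^ 2 * (τ n * (p.2 j : ℝ) ^ 2) -
        τ n * (p.1 j : ℝ) ^ 2 * (τ n * (p.2 i : ℝ) ^ 2)| ≤
          (N : ℝ) ^ 2 / Real.log N ^ (2 * B + 2 * (A + E1 + 1) + 1)).card : ℕ) : ℝ) ≤
      (N : ℝ) ^ 3 / Real.log N ^ A := by
  filter_upwards [ev_log (2 * C), ev_log 4, ev_pow 3 (A + E1 + 1),
    ev_sqrt (2 * C) (by positivity) (E1 + A), eventually_ge_atTop 2] with N h1 h2 h3 h4 hN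
  obtain ⟨Δ, hΔ⟩ : ∃ Δ : ℕ, Δ = ⌊(N : ℝ) / Real.log N ^ (A + E1 + 1)⌋₊ := ⟨_, rfl⟩
  have hl0 : 0 < Real.log (N : ℝ) := by linarith
  have hΔ1 : ∀ k : ℕ, (k : ℝ) ≤ N / Real.log N ^ (A + E1 + 1) → k ≤ Δ := by
    intro k hk
    rw [hΔ]
    exact Nat.le_floor hk
  have hΔ2 : (Δ : ℝ) ≤ N / Real.log N ^ (A + E1 + 1) := by
    rw [hΔ]
    exact Nat.floor_le (by positivity)
  have h5 : ∀ n ∈ Icc 1 N, ((((sph n ×ˢ sph n).filter fun p => ∀ i j : Fin 4,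
      |τ n * (p.1 i : ℝ) ^ 2 * (τ n * (p.2 j : ℝ) ^ 2) -
        τ n * (p.1 j : ℝ) ^ 2 * (τ n * (p.2 i : ℝ) ^ 2)| ≤
          (N : ℝ) ^ 2 / Real.log N ^ (2 * B + 2 * (A + E1 + 1) + 1)).card : ℕ) : ℝ) ≤
      (((Pn Δ n).card : ℕ) : ℝ) := by
    intro n hn
    exact Nat.cast_le.mpr (card_le_card
      (sub_Pn hτ' (by omega) (mem_Icc.mp hn).2 h2 h3 hΔ1))
  exact (sum_le_sum h5).trans ((hP N Δ hN).trans
    (final hC (Nat.cast_nonneg _) (by omega) h1 h2 h4 hΔ2))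

lemma t_hT {C : ℝ} {E1 E : ℕ} (hE : E1 + 1 ≤ E) (hC : 0 < C) (hP : ∀ N Δ : ℕ, 2 ≤ N →
      ∑ n ∈ Icc 1 N, (((Pn Δ n).card : ℕ) : ℝ) ≤
        C * (Δ + Real.sqrt N) * (N : ℝ) ^ 2 * Real.log N ^ E1) :
    ∀ᶠ N : ℕ in atTop, ∑ n ∈ Icc 1 N, ((sph n).card : ℝ) ^ 2 ≤ (N : ℝ) ^ 3 * Real.log N ^ E := by
  filter_upwards [ev_log (2 * C), ev_log 1, eventually_ge_atTop 2] with N h1 h2 hN
  have h3 := hP N N hN
  have hNr : (2 : ℝ) ≤ N := by exact_mod_cast hN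
  have h4 : ∀ n ∈ Icc 1 N, ((sph n).card : ℝ) ^ 2 = (((Pn N n).card : ℕ) : ℝ) := by
    intro n hn
    rw [mem_Icc] at hn
    have h5 : Pn N n = sph n ×ˢ sph n := by
      unfold Pn
      apply filter_true_of_mem
      intro p hp
      rw [mem_product] at hp
      exact (sph_abs hp.1 hp.2).trans (by exact_mod_cast hn.2)
    rw [h5, card_product]
    push_cast
    ring
  rw [sum_congr rfl h4]
  refine h3.trans ?_
  have hsq : Real.sqrt N ≤ N := by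
    rw [Real.sqrt_le_left (by linarith)]
    nlinarith
  have hl0 : 0 ≤ Real.log N := by linarith
  have hp1 : Real.log (N : ℝ) ^ (E1 + 1) ≤ Real.log (N : ℝ) ^ E := pow_le_pow_right₀ h2 hE
  have hp2 : 0 ≤ Real.log (N : ℝ) ^ E1 := pow_nonneg hl0 _
  have hN3 : 0 ≤ (N : ℝ) ^ 3 := by positivity
  calc C * (N + Real.sqrt N) * (N : ℝ) ^ 2 * Real.log N ^ E1
      ≤ C * (N + N) * (N : ℝ) ^ 2 * Real.log N ^ E1 := by gcongr
    _ = (2 * C) * (Real.log (N : ℝ) ^ E1 * (N : ℝ) ^ 3) := by ring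
    _ ≤ Real.log N * (Real.log (N : ℝ) ^ E1 * (N : ℝ) ^ 3) :=
        mul_le_mul_of_nonneg_right h1 (mul_nonneg hp2 hN3)
    _ = (N : ℝ) ^ 3 * Real.log (N : ℝ) ^ (E1 + 1) := by ring
    _ ≤ (N : ℝ) ^ 3 * Real.log (N : ℝ) ^ E := mul_le_mul_of_nonneg_left hp1 hN3

theorem t_OK4 : S_PR4 → S_OK4 := by
  classical
  rintro ⟨C, E1, hC, hP⟩ B τ hτ hτ'
  have hP' : ∀ N Δ : ℕ, 2 ≤ N → ∑ n ∈ Icc 1 N, (((Pn Δ n).card : ℕ) : ℝ) ≤
        C * (Δ + Real.sqrt N) * (N : ℝ) ^ 2 * Real.log N ^ E1 := by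
    intro N Δ hN
    have := hP N Δ hN
    unfold Pn
    convert this using 4
  refine ⟨E1 + 1, fun E hE g w hg hw => ?_⟩
  refine ⟨?_, hg, hw, t_hT hE hC hP', fun A => ⟨2 * B + 2 * (A + E1 + 1) + 1, ?_⟩⟩
  · -- sizes
    intro n x hx k
    have h1 : ((x k : ℝ)) ^ 2 ≤ n := by exact_mod_cast sph_sq_le hx k
    have h2 := hτ n
    have h3 : (1 : ℝ) ≤ E := by
      have : 1 ≤ E := by omega
      exact_mod_cast this
    have h4 : 0 ≤ τ n * (x k : ℝ) ^ 2 := mul_nonneg h2.1 (sq_nonneg _)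
    change |τ n * (x k : ℝ) ^ 2| ≤ E * n
    rw [abs_of_nonneg h4]
    calc τ n * (x k : ℝ) ^ 2 ≤ 1 * n := mul_le_mul h2.2 h1 (sq_nonneg _) zero_le_one
      _ ≤ E * n := mul_le_mul_of_nonneg_right h3 (Nat.cast_nonneg _)
  · convert t_hM hτ' hC hP' A using 5

end Pool.Agent.D0H28.GF
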