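import Mathlib
import Pool.Agent.D0H11.GF.Stm

/-! Project GF, module 8 SQ2 (helper28). -/

set_option autoImplicit false

namespace Pool.Agent.D0H28.GF

open Finset Pool.Agent.D0H11.GF

/-- the pairs with `|u² - v²| ≤ Δ` -/
noncomputable def S2 (M Δ : ℕ) : Finset (ℤ × ℤ) :=
  (Icc (-(M : ℤ)) M ×ˢ Icc (-(M : ℤ)) M).filter (fun p : ℤ × ℤ => |p.1 ^ 2 - p.2 ^ 2| ≤ (Δ : ℤ))

lemma mem_S2 (M Δ : ℕ) (p : ℤ × ℤ) : p ∈ S2 M Δ ↔
    ((-(M : ℤ) ≤ p.1 ∧ p.1 ≤ M) ∧ (-(M : ℤ) ≤ p.2 ∧ p.2 ≤ M)) ∧ |p.1 ^ 2 - p.2 ^ 2| ≤ (Δ : ℤ) := by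
  unfold S2
  rw [mem_filter, mem_product, mem_Icc, mem_Icc]

lemma fib_zero (M Δ : ℕ) :
    ((S2 M Δ).filter (fun p => (p.1 - p.2).natAbs = 0)).card ≤ 4 * M + 1 := by
  have h : (Icc (-(2 * M : ℤ)) (2 * M)).card = 4 * M + 1 := by
    rw [Int.card_Icc]; omega
  rw [← h]
  apply card_le_card_of_injOn (fun p => p.1 + p.2)
  · intro p hp
    rw [mem_coe, mem_filter, mem_S2] at hp
    rw [mem_coe, mem_Icc]
    beta_reduce
    omega
  · intro p hp p' hp' heq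
    rw [mem_coe, mem_filter, mem_S2] at hp hp'
    simp only at heq
    ext <;> omega

lemma fib_succ (M Δ k : ℕ) :
    ((S2 M Δ).filter (fun p => (p.1 - p.2).natAbs = k + 1)).card ≤ 2 * (2 * (Δ / (k + 1)) + 1) := by
  have h : (({((k + 1 : ℕ) : ℤ), -((k + 1 : ℕ) : ℤ)} : Finset ℤ) ×ˢ
      Icc (-((Δ / (k + 1) : ℕ) : ℤ)) ((Δ / (k + 1) : ℕ) : ℤ)).card =
      2 * (2 * (Δ / (k + 1)) + 1) := by
    rw [card_product, Int.card_Icc, card_pair (by omega)]
    omega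
  rw [← h]
  apply card_le_card_of_injOn (fun p => (p.1 - p.2, p.1 + p.2))
  · intro p hp
    rw [mem_coe, mem_filter, mem_S2] at hp
    obtain ⟨⟨_, h2⟩, h3⟩ := hp
    rw [mem_coe, mem_product, mem_Icc, mem_insert, mem_singleton]
    beta_reduce
    dsimp only
    refine ⟨by omega, ?_⟩
    have h4 : (p.1 + p.2).natAbs * (k + 1) ≤ Δ := by
      rw [← h3, ← Int.natAbs_mul]
      have h5 : (p.1 + p.2) * (p.1 - p.2) = p.1 ^ 2 - p.2 ^ 2 := by ring
      rw [h5]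
      have h6 : ((p.1 ^ 2 - p.2 ^ 2).natAbs : ℤ) ≤ Δ := by
        rw [Int.natCast_natAbs]; exact h2
      exact_mod_cast h6
    have h7 : (p.1 + p.2).natAbs ≤ Δ / (k + 1) := (Nat.le_div_iff_mul_le (by omega)).mpr h4
    omega
  · intro p hp p' hp' heq
    simp only [Prod.mk.injEq] at heq
    ext <;> omega

theorem t_SQ2 : S_SQ2 := by
  refine ⟨40, by norm_num, fun M Δ hM => ?_⟩
  change ((S2 M Δ).card : ℝ) ≤ _
  have h1 : (S2 M Δ).card = ∑ k ∈ range (2 * M + 1),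
      ((S2 M Δ).filter (fun p => (p.1 - p.2).natAbs = k)).card := by
    apply card_eq_sum_card_fiberwise
    intro p hp
    rw [mem_coe, mem_S2] at hp
    rw [mem_coe, mem_range]
    beta_reduce
    omega
  have h2 : (S2 M Δ).card ≤ (∑ k ∈ range (2 * M), 2 * (2 * (Δ / (k + 1)) + 1)) + (4 * M + 1) := by
    rw [h1, sum_range_succ']
    exact Nat.add_le_add (sum_le_sum fun k _ => fib_succ M Δ k) (fib_zero M Δ)
  have h3 : ((S2 M Δ).card : ℝ) ≤
      (∑ k ∈ range (2 * M), (4 * Δ * (((k : ℝ) + 1)⁻¹) + 2)) + (4 * M + 1) := by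
    refine (Nat.cast_le.mpr h2).trans ?_
    push_cast
    gcongr with k _
    have h4 : ((Δ / (k + 1) : ℕ) : ℝ) ≤ Δ * ((k : ℝ) + 1)⁻¹ := by
      have := @Nat.cast_div_le ℝ _ _ _ Δ (k + 1)
      rw [div_eq_mul_inv] at this
      push_cast at this
      exact this
    linarith
  have h5 : (∑ k ∈ range (2 * M), ((k : ℝ) + 1)⁻¹) ≤ 1 + Real.log (2 * M) := by
    have h6 := harmonic_le_one_add_log (2 * M)
    unfold harmonic at h6
    push_cast at h6
    exact h6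
  rw [sum_add_distrib, ← mul_sum, sum_const, card_range, nsmul_eq_mul] at h3
  have hM' : (2 : ℝ) ≤ M := by exact_mod_cast hM
  have hlog : 0.69 ≤ Real.log M := by
    have h7 := Real.log_two_gt_d9
    have h8 : Real.log 2 ≤ Real.log M := Real.log_le_log (by norm_num) hM'
    linarith
  have h9 : Real.log (2 * M) ≤ 2 * Real.log M := by
    rw [Real.log_mul (by norm_num) (by positivity)]
    have h8 : Real.log 2 ≤ Real.log M := Real.log_le_log (by norm_num) hM'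
    linarith
  have hΔ : (0 : ℝ) ≤ Δ := Nat.cast_nonneg _
  have h10 : 4 * (Δ : ℝ) * (∑ k ∈ range (2 * M), ((k : ℝ) + 1)⁻¹) ≤
      4 * Δ * (4 * Real.log M) := by
    apply mul_le_mul_of_nonneg_left _ (by positivity)
    linarith
  push_cast at h3
  nlinarith [mul_nonneg hΔ (by linarith : (0 : ℝ) ≤ Real.log M)]

end Pool.Agent.D0H28.GF
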